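import Mathlib

set_option autoImplicit false
open Polynomial

namespace Pool.Agent.Results.MP_d59dab_nt.PrimeFieldCriterion

/-- The `d`-th iterate `f_z^d(x)` of `f_z(x) = x ^ 2 + z`, as an element of `ℤ[z][x]`
(the outer variable is `x`, the inner variable is `z`). -/
noncomputable def iter (d : ℕ) : ℤ[X][X] := (fun g => g ^ 2 + C X)^[d] X

/-- `Φ` is the `n`-th dynatomic polynomial: the product formula
`Φ = ∏_{d ∣ n} (f_z^d(x) - x) ^ μ(n / d)`, with the factors of exponent `-1` moved to the left. -/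
def IsDynatomic (n : ℕ) (Φ : ℤ[X][X]) : Prop :=
  Φ * ∏ d ∈ n.divisors.filter (fun d => ArithmeticFunction.moebius (n / d) = -1), (iter d - X) =
    ∏ d ∈ n.divisors.filter (fun d => ArithmeticFunction.moebius (n / d) = 1), (iter d - X)

/-- The reduction of `Φ` modulo `p` is irreducible in `𝔽̄_p[z][x]`. -/
def GeomIrred (p : ℕ) [Fact p.Prime] (Φ : ℤ[X][X]) : Prop :=
  Irreducible (Φ.map (mapRingHom (Int.castRingHom (AlgebraicClosure (ZMod p)))))

section gen
variable {R : Type*} [CommRing R]

/-- iterates over a general ring -/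
noncomputable def it (R : Type*) [CommRing R] (d : ℕ) : R[X][X] := (fun g => g ^ 2 + C X)^[d] X

theorem it_zero : it R 0 = X := rfl
theorem it_succ (d : ℕ) : it R (d+1) = (it R d)^2 + C X := by
  unfold it
  rw [Function.iterate_succ_apply']

theorem iter_eq (d : ℕ) : iter d = it ℤ d := rfl

theorem it_map (d : ℕ) : (it ℤ d).map (mapRingHom (Int.castRingHom R)) = it R d := by
  induction d with
  | zero => simp [it_zero]
  | succ d ih => simp [it_succ, ih]

theorem it_monic [Nontrivial R] (d : ℕ) : (it R d).Monic ∧ (it R d).natDegree = 2^d := by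
  induction d with
  | zero => simp [it_zero, monic_X]
  | succ d ih =>
    have h1 : ((it R d)^2).Monic := ih.1.pow 2
    have h2 : ((it R d)^2).natDegree = 2^(d+1) := by rw [ih.1.natDegree_pow, ih.2]; ring
    have h3 : (C (X : R[X]) : R[X][X]).degree < ((it R d)^2).degree := by
      refine lt_of_le_of_lt degree_C_le ?_
      rw [← natDegree_pos_iff_degree_pos, h2]; positivity
    rw [it_succ]
    refine ⟨h1.add_of_left h3, ?_⟩
    rw [natDegree_add_eq_left_of_degree_lt h3, h2]

theorem F_monic [Nontrivial R] {d : ℕ} (hd : 0 < d) : (it R d - X).Monic ∧ (it R d - X).natDegree = 2^d := by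
  have h := it_monic (R := R) d
  have h3 : (X : R[X][X]).degree < (it R d).degree := by
    rw [degree_X, degree_eq_natDegree h.1.ne_zero, h.2]
    have : 1 < 2^d := Nat.one_lt_two_pow hd.ne'
    exact_mod_cast this
  refine ⟨h.1.sub_of_left h3, ?_⟩
  rw [natDegree_sub_eq_left_of_natDegree_lt (natDegree_lt_natDegree X_ne_zero h3), h.2]

end gen

theorem dyn_map {n : ℕ} {Φ : ℤ[X][X]} (h : IsDynatomic n Φ) (R : Type*) [CommRing R] :
    (Φ.map (mapRingHom (Int.castRingHom R))) * ∏ d ∈ n.divisors.filter (fun d => ArithmeticFunction.moebius (n / d) = -1), (it R d - X) =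
    ∏ d ∈ n.divisors.filter (fun d => ArithmeticFunction.moebius (n / d) = 1), (it R d - X) := by
  have := congrArg (Polynomial.map (mapRingHom (Int.castRingHom R))) h
  simpa [Polynomial.map_mul, Polynomial.map_prod, iter_eq, it_map] using this

theorem dyn_prime {n : ℕ} (hn : n.Prime) {Φ : ℤ[X][X]} (h : IsDynatomic n Φ) (R : Type*) [CommRing R] :
    (Φ.map (mapRingHom (Int.castRingHom R))) * (it R 1 - X) = it R n - X := by
  have := dyn_map h R
  rw [hn.divisors] at this
  have h1 : ArithmeticFunction.moebius (n / 1) = -1 := by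
    rw [Nat.div_one]; exact ArithmeticFunction.moebius_apply_prime hn
  have h2 : ArithmeticFunction.moebius (n / n) = 1 := by
    rw [Nat.div_self hn.pos]; simp
  have e1 : ({1, n} : Finset ℕ).filter (fun d => ArithmeticFunction.moebius (n / d) = -1) = {1} := by
    ext x; simp only [Finset.mem_filter, Finset.mem_insert, Finset.mem_singleton]
    constructor
    · rintro ⟨rfl | rfl, hx⟩
      · rfl
      · rw [h2] at hx; norm_num at hx
    · rintro rfl; exact ⟨Or.inl rfl, h1⟩
  have e2 : ({1, n} : Finset ℕ).filter (fun d => ArithmeticFunction.moebius (n / d) = 1) = {n} := by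
    ext x; simp only [Finset.mem_filter, Finset.mem_insert, Finset.mem_singleton]
    constructor
    · rintro ⟨rfl | rfl, hx⟩
      · rw [h1] at hx; norm_num at hx
      · rfl
    · rintro rfl; exact ⟨Or.inr rfl, h2⟩
  rw [e1, e2, Finset.prod_singleton, Finset.prod_singleton] at this
  exact this

/-! ### Mersenne primes -/
section mers
variable {k : Type*} [Field k]

theorem eval_it (d : ℕ) : ((it k d).eval 1).coeff 0 = 1 ∧ ((it k d).eval 1).coeff 1 = 2^d - 1 ∧
    2 * ((it k d).eval 1).coeff 2 = 2^d * (2^d + 1 - 2 * d) - 2 := by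
  induction d with
  | zero => simp [it_zero, coeff_one]; norm_num
  | succ d ih =>
    obtain ⟨h0, h1, h2⟩ := ih
    have hs : (it k (d+1)).eval 1 = ((it k d).eval 1)^2 + X := by simp [it_succ]
    rw [hs]
    set a := (it k d).eval 1 with ha
    have q0 : (a^2).coeff 0 = 1 := by simp [sq, mul_coeff_zero, h0]
    have q1 : (a^2).coeff 1 = 2 * (2^d - 1) := by
      rw [sq, mul_coeff_one, h0, h1]; ring
    have q2 : (a^2).coeff 2 = 2 * a.coeff 2 + (2^d-1)^2 := by
      have e : (Finset.HasAntidiagonal.antidiagonal (2:ℕ)) = {((0:ℕ),(2:ℕ)), (1,1), (2,0)} := by decide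
      rw [sq, coeff_mul, e]
      simp [h0, h1]; ring
    refine ⟨by simp [q0], by simp [q1, coeff_X]; ring, ?_⟩
    simp only [coeff_add, q2, coeff_X]
    norm_num
    rw [h2]; ring

theorem map_eval0 (d : ℕ) : (it k d).map (evalRingHom 0) = X^(2^d) := by
  induction d with
  | zero => simp [it_zero]
  | succ d ih => simp [it_succ, ih]; rw [← pow_mul, pow_succ]

end mers

theorem mersenne {n p : ℕ} [hp : Fact p.Prime] (hnp : p + 1 = 2^n) {Φ : ℤ[X][X]} (h : IsDynatomic n Φ) :
    GeomIrred p Φ := by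
  have hn1 : n ≠ 1 := by
    rintro rfl
    have := hp.out.two_le; omega
  have hpe : 2^n - 1 = p := by omega
  have hn : n.Prime := (Nat.prime_of_pow_sub_one_prime hn1 (hpe ▸ hp.out)).2
  unfold GeomIrred
  set k := AlgebraicClosure (ZMod p) with hk
  have hrel := dyn_prime hn h k
  set P := Φ.map (mapRingHom (Int.castRingHom k)) with hP
  have hpk : (p : k) = 0 := CharP.cast_eq_zero k p
  have h2n : (2:k)^n = 1 := by
    have : ((2^n : ℕ) : k) = ((p+1 : ℕ) : k) := by rw [hnp]
    push_cast at this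
    rw [this, hpk, zero_add]
  -- monic and degree
  have hm1 := F_monic (R := k) (d := 1) one_pos
  have hmn := F_monic (R := k) hn.pos
  have hPm : P.Monic := by
    have : (P * (it k 1 - X)).Monic := by rw [hrel]; exact hmn.1
    exact hm1.1.of_mul_monic_right this
  have hPd : P.natDegree = p - 1 := by
    have e := congrArg natDegree hrel
    rw [hPm.natDegree_mul hm1.1, hm1.2, hmn.2] at e
    have := hp.out.two_le
    omega
  -- the translate
  set Q := P.comp (X + C 1) with hQ
  have hQm : Q.Monic := by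
    exact hPm.comp_X_add_C 1
  have hQd : Q.natDegree = p - 1 := by
    rw [hQ, natDegree_comp, natDegree_X_add_C, mul_one, hPd]
  -- reduction mod z
  have hQ0 : Q.map (evalRingHom 0) = X^(p-1) := by
    have e := congrArg (fun F => (F.comp (X + C 1)).map (evalRingHom (0:k))) hrel
    simp only [mul_comp, Polynomial.map_mul] at e
    have e1 : ((it k 1 - X).comp (X + C 1)).map (evalRingHom (0:k)) = (X+1) * X := by
      rw [Polynomial.map_comp, Polynomial.map_sub, map_eval0]
      simp; ring
    have e2 : ((it k n - X).comp (X + C 1)).map (evalRingHom (0:k)) = X^(p-1) * ((X+1) * X) := by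
      rw [Polynomial.map_comp, Polynomial.map_sub, map_eval0]
      have hp1 : (X:k[X])^p = X^(p-1) * X := by
        rw [← pow_succ, Nat.sub_add_cancel hp.out.one_le]
      have : ((X:k[X]) + 1)^p = X^p + 1 := by
        rw [add_pow_char, one_pow]
      simp only [sub_comp, pow_comp, X_comp, Polynomial.map_X, Polynomial.map_add, Polynomial.map_C, map_one, C_1, Polynomial.map_one]
      rw [← hnp, pow_succ, this, hp1]
      ring
    rw [e1, e2] at e
    exact mul_right_cancel₀ (by
      have : ((X:k[X]) + 1) ≠ 0 := X_add_C_ne_zero 1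
      exact mul_ne_zero this X_ne_zero) e
  -- constant term
  have hc1 : (Q.coeff 0).coeff 1 = -(n : k) := by
    have e := congrArg (fun F => F.eval 1) hrel
    simp only [eval_mul] at e
    have e1 : (it k 1 - X).eval 1 = (X : k[X]) := by simp [it_succ, it_zero]
    have e3 : Q.coeff 0 = P.eval 1 := by
      rw [hQ, coeff_zero_eq_eval_zero, eval_comp]; simp
    have e4 := congrArg (fun F : k[X] => F.coeff 2) e
    simp only [e1, coeff_mul_X] at e4
    rw [e3, e4]
    have h4 := (eval_it (k := k) n).2.2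
    rw [h2n] at h4
    have h5 : (it k n - X).eval 1 = (it k n).eval 1 - 1 := by simp
    rw [h5, coeff_sub]
    have h6 : (2:k) ≠ 0 := by
      intro h0
      have : (2:k)^n = 0 := by rw [h0, zero_pow hn.ne_zero]
      rw [this] at h2n
      exact zero_ne_one h2n
    have h7 : (1 : k[X]).coeff 2 = 0 := by simp [coeff_one]
    rw [h7, sub_zero]
    apply mul_left_cancel₀ h6
    rw [h4]; ring
  have hnk : (n:k) ≠ 0 := by
    intro h0
    rw [CharP.cast_eq_zero_iff k p] at h0
    have h1 := Nat.le_of_dvd hn.pos h0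
    have h2 : n + 1 < 2^n := by
      have : 2 ≤ n := hn.two_le
      obtain ⟨m, rfl⟩ := Nat.exists_eq_add_of_le this
      clear * -
      induction m with
      | zero => norm_num
      | succ m ih => rw [← add_assoc, pow_succ]; omega
    omega
  have hirr : Irreducible Q := by
    have hprime : (Ideal.span {(X : k[X])}).IsPrime := by
      rw [Ideal.span_singleton_prime X_ne_zero]; exact prime_X
    refine Polynomial.IsEisensteinAt.irreducible (𝓟 := Ideal.span {(X:k[X])}) ?_ hprime hQm.isPrimitive ?_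
    · refine ⟨hQm.leadingCoeff_notMem hprime.ne_top, ?_, ?_⟩
      · intro i hi
        rw [Ideal.mem_span_singleton, X_dvd_iff]
        have := congrArg (fun F => F.coeff i) hQ0
        simp only [coeff_map, coe_evalRingHom, coeff_X_pow] at this
        rw [coeff_zero_eq_eval_zero, this, if_neg (by omega)]
      · rw [Ideal.span_singleton_pow, Ideal.mem_span_singleton, X_pow_dvd_iff]
        intro hall
        have := hall 1 (by norm_num)
        rw [hc1] at this
        exact hnk (neg_eq_zero.mp this)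
    · rw [hQd]; have := hn.two_le
      have h3 : 3 ≤ p := by
        have : 2^2 ≤ 2^n := Nat.pow_le_pow_right (by norm_num) this
        omega
      omega
  -- translate back
  have e : P = Q.comp (X - C 1) := by
    rw [hQ, comp_assoc]; simp
  have hiff : Irreducible P ↔ Irreducible Q := by
    have := MulEquiv.irreducible_iff (algEquivAevalXAddC (R := k[X]) 1) (x := P)
    rw [← this]
    rfl
  exact hiff.mpr hirr

/-! ### the prime 2 -/
section two
variable {k : Type*} [Field k]

/-- `w = x ^ 2 + x + z` -/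
noncomputable def w (k : Type*) [Field k] : k[X][X] := X^2 + X + C X

theorem two_F [CharP k 2] (d : ℕ) : ∃ L : k[X], it k d - X = aeval (w k) L := by
  induction d with
  | zero => exact ⟨0, by simp [it_zero]⟩
  | succ d ih =>
    obtain ⟨L, hL⟩ := ih
    refine ⟨L^2 + X, ?_⟩
    have h1 : it k d = X + aeval (w k) L := by rw [← hL]; ring
    have h2 : (2 : k[X][X]) = 0 := by
      have : ((2:ℕ) : k[X][X]) = 0 := CharP.cast_eq_zero _ 2
      simpa using this
    rw [it_succ, h1, map_add, map_pow, aeval_X, w]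
    linear_combination (X * aeval (X^2 + X + C X : k[X][X]) L - X) * h2

theorem dvd_lin [IsAlgClosed k] {P : k[X][X]} (hP : Prime P) : ∀ (m : ℕ) (L : k[X]), L.natDegree = m → L ≠ 0 →
    P ∣ aeval (w k) L → ∃ c : k, P ∣ w k - C (C c) := by
  intro m
  induction m with
  | zero =>
    intro L hL hL0 hd
    exfalso
    rw [natDegree_eq_zero] at hL
    obtain ⟨a, rfl⟩ := hL
    rw [aeval_C] at hd
    have ha : a ≠ 0 := fun h => hL0 (by simp [h])
    exact hP.not_isUnit (isUnit_of_dvd_unit hd ((isUnit_iff_ne_zero.mpr ha).map (algebraMap k k[X][X])))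
  | succ m ih =>
    intro L hL hL0 hd
    have hdeg : L.degree ≠ 0 := by
      intro h0
      have h00 : L.natDegree = 0 := natDegree_eq_of_degree_eq_some h0
      omega
    obtain ⟨r, hr⟩ := IsAlgClosed.exists_root L hdeg
    obtain ⟨L', rfl⟩ := dvd_iff_isRoot.mpr hr
    have hL'0 : L' ≠ 0 := right_ne_zero_of_mul hL0
    rw [natDegree_mul (X_sub_C_ne_zero r) hL'0, natDegree_X_sub_C] at hL
    rw [map_mul] at hd
    rcases hP.dvd_or_dvd hd with h | h
    · refine ⟨r, ?_⟩
      simpa using h
    · exact ih L' (by omega) hL'0 h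

end two

theorem deg_big {n : ℕ} (hn : 3 ≤ n) {k : Type*} [Field k] {Φ : ℤ[X][X]} (h : IsDynatomic n Φ) :
    2 < (Φ.map (mapRingHom (Int.castRingHom k))).natDegree := by
  have hrel := dyn_map h k
  set P := Φ.map (mapRingHom (Int.castRingHom k)) with hP
  have hpos : ∀ d ∈ n.divisors, 0 < d := fun d hd => Nat.pos_of_mem_divisors hd
  have hm : ∀ (c : ℤ), ∀ d ∈ n.divisors.filter (fun d => ArithmeticFunction.moebius (n / d) = c), (it k d - X).Monic :=
    fun c d hd => (F_monic (hpos d (Finset.mem_filter.mp hd).1)).1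
  have hM1 := monic_prod_of_monic _ _ (hm (-1))
  have hM2 := monic_prod_of_monic _ _ (hm 1)
  have hPm : P.Monic := by
    have : (P * ∏ d ∈ n.divisors.filter (fun d => ArithmeticFunction.moebius (n / d) = -1), (it k d - X)).Monic := by
      rw [hrel]; exact hM2
    exact hM1.of_mul_monic_right this
  have e := congrArg natDegree hrel
  rw [hPm.natDegree_mul hM1, natDegree_prod_of_monic _ _ (hm (-1)), natDegree_prod_of_monic _ _ (hm 1)] at e
  have hs : ∀ (c : ℤ), ∑ d ∈ n.divisors.filter (fun d => ArithmeticFunction.moebius (n / d) = c), (it k d - X).natDegree =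
      ∑ d ∈ n.divisors.filter (fun d => ArithmeticFunction.moebius (n / d) = c), 2^d :=
    fun c => Finset.sum_congr rfl fun d hd => (F_monic (hpos d (Finset.mem_filter.mp hd).1)).2
  rw [hs, hs] at e
  have h1 : ∑ d ∈ n.divisors.filter (fun d => ArithmeticFunction.moebius (n / d) = -1), 2^d < 2^(n-1) := by
    refine Nat.geomSum_lt le_rfl fun d hd => ?_
    obtain ⟨hd1, hd2⟩ := Finset.mem_filter.mp hd
    have hdn := (Nat.mem_divisors.mp hd1).1
    obtain ⟨c, hc⟩ := hdn
    have hc1 : c ≠ 1 := by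
      rintro rfl
      rw [mul_one] at hc
      subst hc
      rw [Nat.div_self (by omega)] at hd2
      simp at hd2
    have hc0 : c ≠ 0 := by rintro rfl; omega
    have : d * 2 ≤ n := by rw [hc]; exact Nat.mul_le_mul_left d (by omega)
    omega
  have h2 : 2^n ≤ ∑ d ∈ n.divisors.filter (fun d => ArithmeticFunction.moebius (n / d) = 1), 2^d := by
    refine Finset.single_le_sum (f := fun d => 2^d) (fun _ _ => Nat.zero_le _) ?_
    rw [Finset.mem_filter, Nat.mem_divisors, Nat.div_self (by omega)]
    exact ⟨⟨dvd_rfl, by omega⟩, by simp⟩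
  have h3 : 2^n = 2^(n-1) + 2^(n-1) := by
    obtain ⟨m, rfl⟩ : ∃ m, n = m+1 := ⟨n-1, by omega⟩
    rw [Nat.add_sub_cancel, pow_succ]; ring
  have h4 : 2^2 ≤ 2^(n-1) := Nat.pow_le_pow_right (by norm_num) (by omega)
  omega

theorem two {n : ℕ} (hn : 3 ≤ n) {Φ : ℤ[X][X]} (h : IsDynatomic n Φ) :
    haveI : Fact (Nat.Prime 2) := ⟨Nat.prime_two⟩
    ¬ GeomIrred 2 Φ := by
  haveI : Fact (Nat.Prime 2) := ⟨Nat.prime_two⟩
  intro hirr
  unfold GeomIrred at hirr
  have hdeg := deg_big (k := AlgebraicClosure (ZMod 2)) hn h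
  have hrel := dyn_map h (AlgebraicClosure (ZMod 2))
  set k := AlgebraicClosure (ZMod 2) with hk
  set P := Φ.map (mapRingHom (Int.castRingHom k)) with hP
  have hpr : Prime P := hirr.prime
  have hd : P ∣ ∏ d ∈ n.divisors.filter (fun d => ArithmeticFunction.moebius (n / d) = 1), (it k d - X) :=
    ⟨_, hrel.symm⟩
  obtain ⟨d, hdm, hdd⟩ := (hpr.dvd_finsetProd_iff _).mp hd
  have hd0 : 0 < d := Nat.pos_of_mem_divisors (Finset.mem_filter.mp hdm).1
  obtain ⟨L, hL⟩ := two_F (k := k) d
  have hL0 : L ≠ 0 := by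
    rintro rfl
    rw [map_zero] at hL
    exact (F_monic (R := k) hd0).1.ne_zero hL
  rw [hL] at hdd
  obtain ⟨c, hc⟩ := dvd_lin hpr _ L rfl hL0 hdd
  have hwd : (w k - C (C c)).natDegree = 2 := by
    have : w k - C (C c) = X^2 + X + C (X - C c) := by rw [w, C_sub]; ring
    rw [this]
    compute_degree!
  have hw0 : w k - C (C c) ≠ 0 := by
    intro h0; rw [h0] at hwd; simp at hwd
  have := natDegree_le_of_dvd hc hw0
  omega

/-! ### periods 1, 2, 3 -/
section small
variable {k : Type*} [Field k]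

theorem irr_of_swap {P Q : k[X][X]} (h : Bivariate.swap P = Q) (hQ : Irreducible Q) : Irreducible P := by
  rw [← MulEquiv.irreducible_iff (Bivariate.swap (R := k)) (x := P), h]
  exact hQ

theorem irr_lin (r : k[X]) : Irreducible (X + C r : k[X][X]) := by
  have := irreducible_X_sub_C (-r)
  simpa using this

theorem P1 {Φ : ℤ[X][X]} (h : IsDynatomic 1 Φ) (k : Type*) [Field k] : Irreducible (Φ.map (mapRingHom (Int.castRingHom k))) := by
  have hrel := dyn_map h k
  have e1 : (Nat.divisors 1).filter (fun d => ArithmeticFunction.moebius (1 / d) = -1) = ∅ := by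
    rw [Nat.divisors_one]
    ext x; simp only [Finset.mem_filter, Finset.mem_singleton]
    constructor
    · rintro ⟨rfl, hx⟩; simp at hx
    · intro hx; simp at hx
  have e2 : (Nat.divisors 1).filter (fun d => ArithmeticFunction.moebius (1 / d) = 1) = {1} := by
    rw [Nat.divisors_one]
    ext x; simp only [Finset.mem_filter, Finset.mem_singleton]
    constructor
    · rintro ⟨rfl, hx⟩; rfl
    · rintro rfl; simp
  rw [e1, e2, Finset.prod_empty, Finset.prod_singleton, mul_one] at hrel
  rw [hrel]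
  refine irr_of_swap (Q := X + C (X^2 - X)) ?_ (irr_lin _)
  simp [it_succ, it_zero, Bivariate.swap_apply]; ring

theorem P2 {Φ : ℤ[X][X]} (h : IsDynatomic 2 Φ) (k : Type*) [Field k] : Irreducible (Φ.map (mapRingHom (Int.castRingHom k))) := by
  have hrel := dyn_prime Nat.prime_two h k
  have : Φ.map (mapRingHom (Int.castRingHom k)) = it k 1 + X + 1 := by
    apply mul_right_cancel₀ (F_monic (R := k) (d := 1) one_pos).1.ne_zero
    rw [hrel, it_succ, it_succ, it_zero]; ring
  rw [this]
  refine irr_of_swap (Q := X + C (X^2 + X + 1)) ?_ (irr_lin _)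
  simp [it_succ, it_zero, Bivariate.swap_apply]; ring

theorem P3_eq {Φ : ℤ[X][X]} (h : IsDynatomic 3 Φ) (k : Type*) [Field k] :
    Φ.map (mapRingHom (Int.castRingHom k)) = (it k 1 + X + 1) * (it k 2 + X) + 1 := by
  have hrel := dyn_prime Nat.prime_three h k
  apply mul_right_cancel₀ (F_monic (R := k) (d := 1) one_pos).1.ne_zero
  rw [hrel, it_succ 2, it_succ 1, it_succ 0, it_zero]; ring

theorem P3 {Φ : ℤ[X][X]} (h : IsDynatomic 3 Φ) (k : Type*) [Field k] (h2 : (2:k) ≠ 0) :
    Irreducible (Φ.map (mapRingHom (Int.castRingHom k))) := by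
  rw [P3_eq h k]
  refine irr_of_swap (Q := (X + C (X^2 + X + 1)) * ((X + C (X^2))^2 + X + C X) + 1) ?_ ?_
  · simp [it_succ, it_zero, Bivariate.swap_apply]; ring
  have hm : ((X + C (X^2 + X + 1)) * ((X + C (X^2))^2 + X + C X) + 1 : k[X][X]).Monic := by
    monicity!
  have hd : ((X + C (X^2 + X + 1)) * ((X + C (X^2))^2 + X + C X) + 1 : k[X][X]).natDegree = 3 := by
    compute_degree!
  rw [hm.irreducible_iff_roots_eq_zero_of_degree_le_three (by rw [hd]; norm_num) (by rw [hd])]
  by_contra hne
  obtain ⟨r, hr⟩ := Multiset.exists_mem_of_ne_zero hne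
  rw [mem_roots hm.ne_zero, IsRoot.def] at hr
  simp only [eval_add, eval_mul, eval_pow, eval_X, eval_C, eval_one] at hr
  -- r + x^2 + x + 1 is a unit
  have hu : (r + (X^2 + X + 1)) * (-((r + X^2)^2 + r + X)) = 1 := by linear_combination -hr
  obtain ⟨u, hu0, hu1⟩ := isUnit_iff.mp (IsUnit.of_mul_eq_one _ hu)
  obtain ⟨v, hv0, hv1⟩ := isUnit_iff.mp (IsUnit.of_mul_eq_one _ ((mul_comm _ _).trans hu))
  rw [← hu1, ← hv1, ← C_mul, ← C_1, C_inj] at hu
  have hr1 : r = C u - (X^2 + X + 1) := by rw [hu1]; ring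
  rw [hr1] at hv1
  have e : (C (2 * (u - 1)) * X - C (u * (u-1)) - C v : k[X]) = 0 := by
    have h2' : (C 2 : k[X]) = 2 := map_ofNat C 2
    simp only [C_sub, C_mul, C_1, h2']
    rw [hv1]
    ring
  have c1 := congrArg (fun F : k[X] => F.coeff 1) e
  have c0 := congrArg (fun F : k[X] => F.coeff 0) e
  simp only [coeff_sub, coeff_C_mul, coeff_X_one, coeff_X_zero, coeff_C_zero, coeff_zero, mul_one, mul_zero,
    coeff_C_ne_zero (one_ne_zero), sub_zero] at c1 c0
  have hu2 : u - 1 = 0 := (mul_eq_zero.mp c1).resolve_left h2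
  rw [hu2] at c0
  have hv : v = 0 := by linear_combination -c0
  rw [hv, mul_zero] at hu
  exact zero_ne_one hu

end small

theorem two_ne {p : ℕ} [hp : Fact p.Prime] (h : p ≠ 2) : (2 : AlgebraicClosure (ZMod p)) ≠ 0 := by
  intro h0
  have : ((2:ℕ) : AlgebraicClosure (ZMod p)) = 0 := by exact_mod_cast h0
  rw [CharP.cast_eq_zero_iff (AlgebraicClosure (ZMod p)) p] at this
  exact h ((Nat.prime_dvd_prime_iff_eq hp.out Nat.prime_two).mp this)


/-! ### power series solutions of `u_i ^ 2 = 1 + s u_{i+1}` -/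
section ps
variable {F : Type*} [Field F]

noncomputable def c (ε : ℕ → F) : ℕ → ℕ → F
  | 0, i => ε i
  | (j+1), i => (c ε j (i+1) - ∑ a : Fin j, c ε (a.1+1) i * c ε (j - a.1) i) / (2 * ε i)
termination_by j _ => j
decreasing_by
  · omega
  · have := a.2; omega
  · omega

theorem c_zero (ε : ℕ → F) (i : ℕ) : c ε 0 i = ε i := by rw [c]
theorem c_succ (ε : ℕ → F) (j i : ℕ) : c ε (j+1) i = (c ε j (i+1) - ∑ a : Fin j, c ε (a.1+1) i * c ε (j - a.1) i) / (2 * ε i) := by rw [c]

noncomputable def U (ε : ℕ → F) (i : ℕ) : PowerSeries F := PowerSeries.mk (fun j => c ε j i)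

theorem U_sq (ε : ℕ → F) (hε : ∀ i, ε i ^ 2 = 1) (h2 : (2:F) ≠ 0) (i : ℕ) :
    (U ε i)^2 = 1 + PowerSeries.X * U ε (i+1) := by
  have hne : ∀ i, ε i ≠ 0 := fun i h => by
    have := hε i; rw [h] at this; simp at this
  ext j
  rw [sq, PowerSeries.coeff_mul]
  cases j with
  | zero => simp [U, c_zero, ← sq, hε]
  | succ j =>
    rw [map_add, PowerSeries.coeff_succ_X_mul, PowerSeries.coeff_one, if_neg (Nat.succ_ne_zero j), zero_add]
    simp only [U, PowerSeries.coeff_mk]
    rw [Finset.Nat.sum_antidiagonal_eq_sum_range_succ_mk, Finset.sum_range_succ, Finset.sum_range_succ']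
    simp only [Nat.sub_self, Nat.sub_zero, c_zero, Nat.reduceSubDiff]
    have e := c_succ ε j i
    rw [eq_div_iff (mul_ne_zero h2 (hne i))] at e
    rw [Finset.sum_range]
    linear_combination e

theorem c_per (ε : ℕ → F) {n : ℕ} (hp : ∀ i, ε (i+n) = ε i) (j : ℕ) : ∀ i, c ε j (i+n) = c ε j i := by
  induction j using Nat.strong_induction_on with
  | _ j ih =>
    intro i
    cases j with
    | zero => rw [c_zero, c_zero, hp]
    | succ j =>
      rw [c_succ, c_succ, hp]
      have e1 : c ε j (i+n+1) = c ε j (i+1) := by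
        have := ih j (by omega) (i+1)
        rw [← this]; congr 1; omega
      have e2 : ∑ a : Fin j, c ε (a.1+1) (i+n) * c ε (j - a.1) (i+n) = ∑ a : Fin j, c ε (a.1+1) i * c ε (j - a.1) i := by
        refine Finset.sum_congr rfl fun a _ => ?_
        rw [ih (a.1+1) (by have := a.2; omega), ih (j - a.1) (by omega)]
      rw [e1, e2]

theorem U_per (ε : ℕ → F) {n : ℕ} (hp : ∀ i, ε (i+n) = ε i) (i : ℕ) : U ε (i+n) = U ε i := by
  unfold U; congr 1; ext j; exact c_per ε hp j i

theorem U_const (ε : ℕ → F) (i : ℕ) : PowerSeries.constantCoeff (U ε i) = ε i := by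
  rw [← PowerSeries.coeff_zero_eq_constantCoeff_apply, U, PowerSeries.coeff_mk, c_zero]
end ps

/-- Frobenius-fixed elements come from the prime field -/
theorem fixed_mem {p : ℕ} [hp : Fact p.Prime] {k : Type*} [Field k] [Algebra (ZMod p) k] {a : k} (ha : a^p = a) :
    a ∈ Set.range (algebraMap (ZMod p) k) := by
  haveI : CharP k p := charP_of_injective_algebraMap (algebraMap (ZMod p) k).injective p
  have h1 : a ∈ (⊥ : Subfield k) := (Subfield.mem_bot_iff_pow_eq_self k p).mpr ha
  rw [← ZMod.fieldRange_castHom_eq_bot p] at h1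
  obtain ⟨r, hr⟩ := h1
  exact ⟨r, by rw [← hr]; exact congrArg (fun f : ZMod p →+* k => f r) (Subsingleton.elim _ _)⟩

section descent
variable {p : ℕ} [hp : Fact p.Prime] {k : Type*} [Field k] [Algebra (ZMod p) k] [CharP k p] [PerfectRing k p]

/-- descent of irreducibility along a point with Frobenius-fixed coordinates -/
theorem descent {K : Type*} [Field K] (ev : k[X][X] →+* K) (φ : K →+* K)
    (hφ : ∀ A : k[X][X], φ (ev A) = ev (A.map (mapRingHom (frobenius k p))))
    (P0 : (ZMod p)[X][X]) (hm : P0.Monic) (hirr : Irreducible P0)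
    (hev : ev (P0.map (mapRingHom (algebraMap (ZMod p) k))) = 0)
    (hev' : ev (derivative (P0.map (mapRingHom (algebraMap (ZMod p) k)))) ≠ 0) :
    Irreducible (P0.map (mapRingHom (algebraMap (ZMod p) k))) := by
  set P := P0.map (mapRingHom (algebraMap (ZMod p) k)) with hP
  have hPm : P.Monic := hm.map _
  have hfr : P.map (mapRingHom (frobenius k p)) = P := by
    rw [hP, Polynomial.map_map]
    congr 1
    ext r
    · simp [frobenius_def, ← map_pow]
    · simp
  obtain ⟨f, hf, hfP⟩ := UniqueFactorizationMonoid.exists_prime_factors P hPm.ne_zero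
  -- a prime factor vanishing at the point
  obtain ⟨A, hA, hAP, hAev⟩ : ∃ A, Prime A ∧ A ∣ P ∧ ev A = 0 := by
    have h0 : ev f.prod = 0 := by
      obtain ⟨u, hu⟩ := hfP
      have := congrArg ev hu
      rw [map_mul, hev] at this
      rcases mul_eq_zero.mp this with h | h
      · exact h
      · exact absurd h ((u.isUnit.map ev).ne_zero)
    rw [map_multiset_prod, Multiset.prod_eq_zero_iff, Multiset.mem_map] at h0
    obtain ⟨A, hAf, hA0⟩ := h0
    exact ⟨A, hf A hAf, (Multiset.dvd_prod hAf).trans hfP.dvd, hA0⟩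
  -- normalise to a monic one
  obtain ⟨A, hA, hAP, hAev, hAm⟩ : ∃ A, Prime A ∧ A ∣ P ∧ ev A = 0 ∧ A.Monic := by
    obtain ⟨B, hB⟩ := hAP
    have hl : A.leadingCoeff * B.leadingCoeff = 1 := by
      rw [← leadingCoeff_mul, ← hB]; exact hPm
    have hl' : IsUnit (C B.leadingCoeff : k[X][X]) := (IsUnit.of_mul_eq_one _ ((mul_comm _ _).trans hl)).map C
    refine ⟨A * C B.leadingCoeff, ?_, ?_, ?_, ?_⟩
    · exact (associated_mul_unit_left _ _ hl').symm.prime hA
    · exact (associated_mul_unit_left _ _ hl').dvd.trans ⟨B, hB⟩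
    · rw [map_mul, hAev, zero_mul]
    · rw [Monic, leadingCoeff_mul, leadingCoeff_C, hl]
  obtain ⟨B, hB⟩ := hAP
  have hBev : ev B ≠ 0 := by
    intro h0
    apply hev'
    rw [hB, derivative_mul, map_add, map_mul, map_mul, hAev, h0, mul_zero, zero_mul, add_zero]
  set T := A.map (mapRingHom (frobenius k p)) with hT
  have hTm : T.Monic := hAm.map _
  have hTev : ev T = 0 := by rw [hT, ← hφ, hAev, map_zero]
  have hTP : T ∣ P := by
    rw [← hfr, hB, Polynomial.map_mul]; exact dvd_mul_right _ _
  have hTirr : Irreducible T := by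
    have e : T = mapEquiv (mapEquiv (frobeniusEquiv k p)) A := by
      rfl
    rw [e, MulEquiv.irreducible_iff]
    exact hA.irreducible
  have hTA : T ∣ A := by
    rw [hB] at hTP
    rcases hTirr.prime.dvd_or_dvd hTP with h | ⟨D, hD⟩
    · exact h
    · exact absurd (by rw [hD, map_mul, hTev, zero_mul]) hBev
  have hTeq : T = A := eq_of_monic_of_associated hTm hAm (hTirr.associated_of_dvd hA.irreducible hTA)
  -- the coefficients of A lie in the prime field
  have hlift : A ∈ lifts (mapRingHom (algebraMap (ZMod p) k)) := by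
    rw [lifts_iff_coeff_lifts]
    intro i
    have hi : (A.coeff i).map (frobenius k p) = A.coeff i := by
      have := congrArg (fun F => F.coeff i) hTeq
      simpa [hT] using this
    have : A.coeff i ∈ lifts (algebraMap (ZMod p) k) := by
      rw [lifts_iff_coeff_lifts]
      intro j
      apply fixed_mem
      have := congrArg (fun F => F.coeff j) hi
      simpa [frobenius_def] using this
    rw [mem_lifts] at this
    obtain ⟨q, hq⟩ := this
    exact ⟨q, hq⟩
  obtain ⟨A0, hA0, -, hA0m⟩ := lifts_and_natDegree_eq_and_monic hlift hAm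
  have hinj : Function.Injective (mapRingHom (algebraMap (ZMod p) k)) :=
    map_injective _ (algebraMap (ZMod p) k).injective
  have hdvd : A0 ∣ P0 := by
    rw [← map_dvd_map (mapRingHom (algebraMap (ZMod p) k)) hinj hA0m, hA0]
    exact ⟨B, hB⟩
  have hA0u : ¬ IsUnit A0 := by
    intro hu
    have : IsUnit A := by rw [← hA0]; exact hu.map (mapRingHom (mapRingHom (algebraMap (ZMod p) k)))
    exact hA.not_isUnit this
  have : A0 = P0 := by
    obtain ⟨D, hD⟩ := hdvd
    have hDu : IsUnit D := (hirr.isUnit_or_isUnit hD).resolve_left hA0u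
    refine eq_of_monic_of_associated hA0m hm ⟨hDu.unit, ?_⟩
    rw [hD]; rfl
  rw [hP, ← this, hA0]
  exact hA.irreducible
end descent

/-! ### a point at infinity with coordinates over the prime field -/
section pt
variable {p : ℕ} [hp : Fact p.Prime] {k : Type*} [Field k] [Algebra (ZMod p) k]

/-- the itinerary `-++...+` -/
noncomputable def eps (p n : ℕ) (i : ℕ) : ZMod p := if n ∣ i then -1 else 1

theorem eps_sq (p n i : ℕ) : eps p n i ^ 2 = 1 := by
  unfold eps; split_ifs <;> simp

theorem eps_per (p n i : ℕ) : eps p n (i + n) = eps p n i := by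
  simp only [eps, Nat.dvd_add_self_right]

noncomputable def V (p n : ℕ) [Fact p.Prime] (k : Type*) [Field k] [Algebra (ZMod p) k] (i : ℕ) : PowerSeries k :=
  PowerSeries.map (algebraMap (ZMod p) k) (U (eps p n) i)

theorem V_sq (n : ℕ) (h2 : (2 : ZMod p) ≠ 0) (i : ℕ) : (V p n k i)^2 = 1 + PowerSeries.X * V p n k (i+1) := by
  have := congrArg (PowerSeries.map (algebraMap (ZMod p) k)) (U_sq (eps p n) (eps_sq p n) h2 i)
  simpa [V] using this

theorem V_per (n : ℕ) (i : ℕ) : V p n k (i+n) = V p n k i := by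
  unfold V; rw [U_per (eps p n) (eps_per p n)]

theorem V_const (n : ℕ) (i : ℕ) : PowerSeries.constantCoeff (V p n k i) = algebraMap (ZMod p) k (eps p n i) := by
  rw [V, ← PowerSeries.coeff_zero_eq_constantCoeff_apply, PowerSeries.coeff_map,
    PowerSeries.coeff_zero_eq_constantCoeff_apply, U_const]

noncomputable abbrev KK (k : Type*) [Field k] := FractionRing (PowerSeries k)
noncomputable abbrev io (k : Type*) [Field k] : PowerSeries k →+* KK k := algebraMap _ _
noncomputable def ss (k : Type*) [Field k] : KK k := io k PowerSeries.X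

theorem io_inj : Function.Injective (io k) := IsFractionRing.injective _ _

theorem ss_ne : ss k ≠ 0 := by
  unfold ss
  intro h
  rw [← map_zero (io k)] at h
  exact PowerSeries.X_ne_zero (io_inj h)

noncomputable def xx (p n : ℕ) [Fact p.Prime] (k : Type*) [Field k] [Algebra (ZMod p) k] (i : ℕ) : KK k := io k (V p n k i) / ss k

noncomputable def ev (p n : ℕ) [Fact p.Prime] (k : Type*) [Field k] [Algebra (ZMod p) k] : k[X][X] →+* KK k :=
  eval₂RingHom (eval₂RingHom ((io k).comp PowerSeries.C) (-((ss k)^2)⁻¹)) (xx p n k 0)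

theorem ev_X (n : ℕ) : ev p n k X = xx p n k 0 := by simp [ev]
theorem ev_CX (n : ℕ) : ev p n k (C X) = -((ss k)^2)⁻¹ := by simp [ev]
theorem ev_CC (n : ℕ) (a : k) : ev p n k (C (C a)) = io k (PowerSeries.C a) := by simp [ev]

theorem ev_it (n : ℕ) (h2 : (2 : ZMod p) ≠ 0) (d : ℕ) : ev p n k (it k d) = xx p n k d := by
  induction d with
  | zero => rw [it_zero, ev_X]
  | succ d ih =>
    rw [it_succ, map_add, map_pow, ih, ev_CX]
    have h := congrArg (io k) (V_sq (k := k) n h2 d)
    rw [map_pow, map_add, map_one, map_mul] at h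
    have hs := ss_ne (k := k)
    unfold xx
    have h' : (io k (V p n k d))^2 = 1 + ss k * io k (V p n k (d+1)) := h
    field_simp
    rw [h']; ring

theorem xx_per (n : ℕ) (i : ℕ) : xx p n k (i + n) = xx p n k i := by
  unfold xx; rw [V_per]

theorem xx_ne {n : ℕ} (h2 : (2 : ZMod p) ≠ 0) {d : ℕ} (hd : 0 < d) (hdn : d < n) : xx p n k d ≠ xx p n k 0 := by
  intro h
  unfold xx at h
  rw [div_left_inj' ss_ne] at h
  have h1 := congrArg PowerSeries.constantCoeff (io_inj h)
  rw [V_const, V_const] at h1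
  have h3 := (algebraMap (ZMod p) k).injective h1
  unfold eps at h3
  rw [if_neg (Nat.not_dvd_of_pos_of_lt hd hdn), if_pos (dvd_zero n)] at h3
  apply h2
  linear_combination h3

theorem ev_der (n : ℕ) (h2 : (2 : ZMod p) ≠ 0) (d : ℕ) :
    ev p n k (derivative (it k d)) = ∏ i ∈ Finset.range d, (2 * xx p n k i) := by
  induction d with
  | zero => simp [it_zero]
  | succ d ih =>
    rw [it_succ, derivative_add, derivative_C, add_zero, derivative_pow, Finset.prod_range_succ, ← ih]
    have hC : ev p n k (C 2) = 2 := by rw [show (C 2 : k[X][X]) = 2 from map_ofNat C 2, map_ofNat]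
    simp [ev_it n h2, hC]
    ring

theorem ev_der_ne {n : ℕ} (hn : 0 < n) (h2 : (2 : ZMod p) ≠ 0) :
    ev p n k (derivative (it k n - X)) ≠ 0 := by
  rw [derivative_sub, derivative_X, map_sub, map_one, ev_der n h2]
  intro h
  have h1 : ∏ i ∈ Finset.range n, (2 * xx p n k i) = 1 := sub_eq_zero.mp h
  have h3 : ∏ i ∈ Finset.range n, (2 * xx p n k i) = (∏ i ∈ Finset.range n, io k (2 * V p n k i)) / (ss k)^n := by
    rw [eq_div_iff (pow_ne_zero _ ss_ne)]
    have : (ss k)^n = ∏ i ∈ Finset.range n, ss k := by simp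
    rw [this, ← Finset.prod_mul_distrib]
    refine Finset.prod_congr rfl fun i _ => ?_
    unfold xx
    rw [map_mul, map_ofNat]
    field_simp [ss_ne (k := k)]
  rw [h3, div_eq_one_iff_eq (pow_ne_zero _ ss_ne), ← map_prod] at h1
  unfold ss at h1
  rw [← map_pow] at h1
  have h4 := congrArg PowerSeries.constantCoeff (io_inj h1)
  rw [map_prod, map_pow, PowerSeries.constantCoeff_X, zero_pow hn.ne', Finset.prod_eq_zero_iff] at h4
  obtain ⟨i, _, hi⟩ := h4
  rw [map_mul, V_const, map_ofNat] at hi
  have h5 : algebraMap (ZMod p) k (2 * eps p n i) = 0 := by rw [map_mul, map_ofNat]; exact hi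
  rw [map_eq_zero] at h5
  rcases mul_eq_zero.mp h5 with h6 | h6
  · exact h2 h6
  · have := eps_sq p n i
    rw [h6] at this; simp at this

variable [CharP k p]

omit [Algebra (ZMod p) k] in
theorem frob_inj : Function.Injective (PowerSeries.map (frobenius k p)) := by
  intro a b h
  ext i
  have := congrArg (PowerSeries.coeff i) h
  rw [PowerSeries.coeff_map, PowerSeries.coeff_map] at this
  exact (frobenius k p).injective this

noncomputable def phi (p : ℕ) [Fact p.Prime] (k : Type*) [Field k] [CharP k p] : KK k →+* KK k :=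
  IsFractionRing.map (frob_inj (p := p) (k := k))

omit [Algebra (ZMod p) k] in
theorem phi_io (a : PowerSeries k) : phi p k (io k a) = io k (PowerSeries.map (frobenius k p) a) := by
  unfold phi IsFractionRing.map
  exact IsLocalization.map_eq _ _

theorem phi_ev (n : ℕ) (A : k[X][X]) : phi p k (ev p n k A) = ev p n k (A.map (mapRingHom (frobenius k p))) := by
  have hs : phi p k (ss k) = ss k := by
    unfold ss; rw [phi_io, PowerSeries.map_X]
  have hV : PowerSeries.map (frobenius k p) (V p n k 0) = V p n k 0 := by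
    unfold V
    ext i
    simp [frobenius_def, ← map_pow]
  have : (phi p k).comp (ev p n k) = (ev p n k).comp (mapRingHom (mapRingHom (frobenius k p))) := by
    apply Polynomial.ringHom_ext'
    · apply Polynomial.ringHom_ext'
      · ext a
        simp only [RingHom.comp_apply]
        rw [ev_CC, phi_io, PowerSeries.map_C]
        simp only [coe_mapRingHom, Polynomial.map_C]
        rw [ev_CC]
      · simp only [RingHom.comp_apply]
        rw [ev_CX]
        simp only [coe_mapRingHom, Polynomial.map_C, Polynomial.map_X]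
        rw [ev_CX, map_neg, map_inv₀, map_pow, hs]
    · simp only [RingHom.comp_apply]
      rw [ev_X]
      simp only [coe_mapRingHom, Polynomial.map_X]
      rw [ev_X]
      unfold xx
      rw [map_div₀, phi_io, hs, hV]
  exact congrArg (fun f => f A) this

end pt

/-- The reduction of `Φ` modulo `p` is irreducible in `𝔽_p[z][x]`. -/
def PrimeFieldIrred (p : ℕ) [Fact p.Prime] (Φ : ℤ[X][X]) : Prop :=
  Irreducible (Φ.map (mapRingHom (Int.castRingHom (ZMod p))))

theorem dyn_monic {n : ℕ} {Φ : ℤ[X][X]} (h : IsDynatomic n Φ) (R : Type*) [CommRing R] [Nontrivial R] :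
    (Φ.map (mapRingHom (Int.castRingHom R))).Monic := by
  have hrel := dyn_map h R
  have hpos : ∀ d ∈ n.divisors, 0 < d := fun d hd => Nat.pos_of_mem_divisors hd
  have hm : ∀ (c : ℤ), ∀ d ∈ n.divisors.filter (fun d => ArithmeticFunction.moebius (n / d) = c), (it R d - X).Monic :=
    fun c d hd => (F_monic (hpos d (Finset.mem_filter.mp hd).1)).1
  have hM1 := monic_prod_of_monic _ _ (hm (-1))
  have hM2 := monic_prod_of_monic _ _ (hm 1)
  rw [← hrel] at hM2
  exact hM1.of_mul_monic_right hM2

theorem map_alg (p : ℕ) [Fact p.Prime] {k : Type*} [Field k] [Algebra (ZMod p) k] (Φ : ℤ[X][X]) :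
    (Φ.map (mapRingHom (Int.castRingHom (ZMod p)))).map (mapRingHom (algebraMap (ZMod p) k)) =
    Φ.map (mapRingHom (Int.castRingHom k)) := by
  rw [Polynomial.map_map, mapRingHom_comp]
  congr 2
  exact RingHom.ext_int _ _

theorem geom_of_prime {n p : ℕ} [hp : Fact p.Prime] (hn : 1 ≤ n) (hp2 : p ≠ 2) {Φ : ℤ[X][X]} (h : IsDynatomic n Φ)
    (hirr : PrimeFieldIrred p Φ) : GeomIrred p Φ := by
  unfold GeomIrred
  have h2 : (2 : ZMod p) ≠ 0 := by
    intro h0
    apply two_ne hp2
    have := congrArg (algebraMap (ZMod p) (AlgebraicClosure (ZMod p))) h0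
    rwa [map_ofNat, map_zero] at this
  set k := AlgebraicClosure (ZMod p) with hk
  have hrel := dyn_map h k
  rw [← map_alg p] at hrel ⊢
  set P := (Φ.map (mapRingHom (Int.castRingHom (ZMod p)))).map (mapRingHom (algebraMap (ZMod p) k)) with hP
  set M := ∏ d ∈ n.divisors.filter (fun d => ArithmeticFunction.moebius (n / d) = -1), (it k d - X) with hM
  -- all factors with `d < n` are nonzero at the point
  have hfac : ∀ d ∈ n.divisors, d ≠ n → ev p n k (it k d - X) ≠ 0 := by
    intro d hd hdn
    rw [map_sub, ev_it n h2, ev_X]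
    have h1 := Nat.pos_of_mem_divisors hd
    have h3 := Nat.divisor_le hd
    exact sub_ne_zero.mpr (xx_ne h2 h1 (lt_of_le_of_ne h3 hdn))
  have hMne : ev p n k M ≠ 0 := by
    rw [hM, map_prod, Finset.prod_ne_zero_iff]
    intro d hd
    obtain ⟨hd1, hd2⟩ := Finset.mem_filter.mp hd
    refine hfac d hd1 ?_
    rintro rfl
    rw [Nat.div_self (by omega)] at hd2
    simp at hd2
  have hmem : n ∈ n.divisors.filter (fun d => ArithmeticFunction.moebius (n / d) = 1) := by
    rw [Finset.mem_filter, Nat.mem_divisors, Nat.div_self (by omega)]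
    exact ⟨⟨dvd_rfl, by omega⟩, by simp⟩
  rw [← Finset.mul_prod_erase _ _ hmem] at hrel
  set N := ∏ x ∈ (n.divisors.filter (fun d => ArithmeticFunction.moebius (n / d) = 1)).erase n, (it k x - X) with hN
  have hNne : ev p n k N ≠ 0 := by
    rw [hN, map_prod, Finset.prod_ne_zero_iff]
    intro d hd
    obtain ⟨hd0, hd1⟩ := Finset.mem_erase.mp hd
    exact hfac d (Finset.mem_filter.mp hd1).1 hd0
  have hFn : ev p n k (it k n - X) = 0 := by
    rw [map_sub, ev_it n h2, ev_X]
    have := xx_per (p := p) (k := k) n 0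
    rw [zero_add] at this
    rw [this, sub_self]
  have hPev : ev p n k P = 0 := by
    have := congrArg (ev p n k) hrel
    rw [map_mul, map_mul, hFn, zero_mul] at this
    exact (mul_eq_zero.mp this).resolve_right hMne
  have hPev' : ev p n k (derivative P) ≠ 0 := by
    intro h0
    have := congrArg (fun F => ev p n k (derivative F)) hrel
    simp only [derivative_mul, map_add, map_mul, h0, hPev, hFn, zero_mul, add_zero] at this
    exact mul_ne_zero (ev_der_ne hn h2) hNne this.symm
  exact descent (ev p n k) (phi p k) (phi_ev n) _ (dyn_monic h _) hirr hPev hPev'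

theorem prime_of_geom {n p : ℕ} [hp : Fact p.Prime] {Φ : ℤ[X][X]} (h : IsDynatomic n Φ)
    (hg : GeomIrred p Φ) : PrimeFieldIrred p Φ := by
  unfold GeomIrred at hg
  rw [← map_alg p] at hg
  exact Monic.irreducible_of_irreducible_map _ _ (dyn_monic h _) hg

/-- specialisation -/
theorem prime_of_spec {n p : ℕ} [hp : Fact p.Prime] {Φ : ℤ[X][X]} (h : IsDynatomic n Φ) (a : ZMod p)
    (ha : Irreducible ((Φ.map (mapRingHom (Int.castRingHom (ZMod p)))).map (evalRingHom a))) : PrimeFieldIrred p Φ :=
  Monic.irreducible_of_irreducible_map _ _ (dyn_monic h _) ha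

theorem prim_root {n p : ℕ} [hp : Fact p.Prime] (hp2 : p ≠ 2) {Φ : ℤ[X][X]} (h : IsDynatomic n Φ)
    (hq : (2 ^ n - 1).Prime) (hord : orderOf (p : ZMod (2 ^ n - 1)) = 2 ^ n - 2) : GeomIrred p Φ := by
  have hn1 : n ≠ 1 := by
    rintro rfl
    norm_num at hq
  have hn : n.Prime := (Nat.prime_of_pow_sub_one_prime hn1 hq).2
  refine geom_of_prime hn.one_lt.le hp2 h (prime_of_spec h 0 ?_)
  have hrel := congrArg (Polynomial.map (evalRingHom (0 : ZMod p))) (dyn_prime hn h (ZMod p))
  rw [Polynomial.map_mul, Polynomial.map_sub, Polynomial.map_sub, map_eval0, map_eval0, Polynomial.map_X] at hrel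
  set G := (Φ.map (mapRingHom (Int.castRingHom (ZMod p)))).map (evalRingHom (0 : ZMod p)) with hG
  haveI : Fact (2 ^ n - 1).Prime := ⟨hq⟩
  have hcyc : G = cyclotomic (2 ^ n - 1) (ZMod p) := by
    have h1 := cyclotomic_prime_mul_X_sub_one (ZMod p) (2 ^ n - 1)
    apply mul_right_cancel₀ (b := (X * (X - 1) : (ZMod p)[X]))
    · exact mul_ne_zero X_ne_zero (X_sub_C_ne_zero 1)
    · have e : 2 ^ n = (2 ^ n - 1) + 1 := by
        have := hq.two_le; omega
      calc G * (X * (X - 1)) = G * (X ^ 2 ^ 1 - X) := by ring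
        _ = X ^ 2 ^ n - X := hrel
        _ = X * (X ^ (2 ^ n - 1) - 1) := by
            nth_rw 1 [e]
            rw [pow_succ]; ring
        _ = _ := by rw [← h1]; ring
  have hnd : ¬ p ∣ 2 ^ n - 1 := by
    intro hd
    have h0 : (p : ZMod (2 ^ n - 1)) = 0 := by
      rw [(Nat.prime_dvd_prime_iff_eq hp.out hq).mp hd]
      exact ZMod.natCast_self _
    rw [h0] at hord
    have : 2 ≤ n := hn.two_le
    have h4 : 2^2 ≤ 2^n := Nat.pow_le_pow_right (by norm_num) this
    have h5 : orderOf (0 : ZMod (2 ^ n - 1)) = 0 := by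
      rw [orderOf_eq_zero_iff']
      intro m hm h
      rw [zero_pow hm.ne'] at h
      exact zero_ne_one h
    omega
  refine ZMod.irreducible_of_dvd_cyclotomic_of_natDegree hnd (hcyc ▸ dvd_rfl) ?_
  rw [hcyc, natDegree_cyclotomic, Nat.totient_prime hq, ← orderOf_units, ZMod.coe_unitOfCoprime, hord]
  omega

/-- (1) For every `n ≥ 1` and odd prime `p`, geometric irreducibility of the reduction is equivalent to
irreducibility over `𝔽_p`; in particular one irreducible fibre `Φ_n(x, a)`, `a ∈ 𝔽_p`, suffices.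
(2) If `2 ^ n - 1` is prime, no odd primitive root `p` modulo `2 ^ n - 1` is exceptional, and neither is
`p = 2 ^ n - 1`. (3) `2` is exceptional for every `n ≥ 3`; `n = 1, 2` have no exceptional prime, `n = 3` only `2`. -/
theorem result :
    (∀ (n : ℕ) (Φ : ℤ[X][X]), 1 ≤ n → IsDynatomic n Φ → ∀ (p : ℕ) [Fact p.Prime], p ≠ 2 →
      (GeomIrred p Φ ↔ PrimeFieldIrred p Φ) ∧
      ∀ a : ZMod p, Irreducible ((Φ.map (mapRingHom (Int.castRingHom (ZMod p)))).map (evalRingHom a)) →
        GeomIrred p Φ) ∧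
    (∀ (n : ℕ) (Φ : ℤ[X][X]), IsDynatomic n Φ → (2 ^ n - 1).Prime → ∀ (p : ℕ) [Fact p.Prime],
      (p ≠ 2 ∧ orderOf (p : ZMod (2 ^ n - 1)) = 2 ^ n - 2 → GeomIrred p Φ) ∧
      (p = 2 ^ n - 1 → GeomIrred p Φ)) ∧
    (∀ (n : ℕ) (Φ : ℤ[X][X]), 3 ≤ n → IsDynatomic n Φ → ∀ (p : ℕ) [Fact p.Prime], p = 2 → ¬ GeomIrred p Φ) ∧
    (∀ Φ : ℤ[X][X], IsDynatomic 1 Φ → ∀ (p : ℕ) [Fact p.Prime], GeomIrred p Φ) ∧
    (∀ Φ : ℤ[X][X], IsDynatomic 2 Φ → ∀ (p : ℕ) [Fact p.Prime], GeomIrred p Φ) ∧
    (∀ Φ : ℤ[X][X], IsDynatomic 3 Φ → ∀ (p : ℕ) [Fact p.Prime], (GeomIrred p Φ ↔ p ≠ 2)) := by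
  refine ⟨?_, ?_, ?_, fun Φ h p _ => P1 h _, fun Φ h p _ => P2 h _, ?_⟩
  · intro n Φ hn h p hp hp2
    exact ⟨⟨prime_of_geom h, geom_of_prime hn hp2 h⟩, fun a ha => geom_of_prime hn hp2 h (prime_of_spec h a ha)⟩
  · intro n Φ h hq p hp
    refine ⟨fun h3 => prim_root h3.1 h hq h3.2, fun hpn => ?_⟩
    have := hp.out.two_le
    exact mersenne (by omega) h
  · rintro n Φ hn h p hp rfl
    exact two hn h
  · intro Φ h p hp
    constructor
    · rintro hg rfl
      exact two le_rfl h hg
    · intro hp2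
      exact P3 h _ (two_ne hp2)

end Pool.Agent.Results.MP_d59dab_nt.PrimeFieldCriterion
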